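import Mathlib
import Pool.Agent.L7h31.CR.Stm

/-! Isometries between the tiles. -/

set_option autoImplicit false

namespace Pool.Agent.L7h63.CR

open Pool.Agent.L7h31.CR

theorem s_GAM : S_SIM → S_IMG → S_SD → S_GAM := by
  classical
  intro hSIM hIMG hSD k A l l' a a'
  set d : ℤ := l' - l with hd
  set u : ZMod (k + 1) → ℤ := fun j => a (j - (d : ZMod (k + 1))) with hu
  set ε : ZMod (k + 1) → ℝ := fun j => if Even (a' j - u j) then 1 else -1 with hε
  set N : ZMod (k + 1) → ℤ := fun j => if Even (a' j - u j) then a' j - u j else a' j + u j + 1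
    with hN
  have hε1 : ∀ j, ε j = 1 ∨ ε j = -1 := fun j => by
    by_cases h : Even (a' j - u j)
    · left; simp [hε, h]
    · right; simp [hε, h]
  have hNe : ∀ j, ∃ M : ℤ, N j = 2 * M := fun j => by
    by_cases h : Even (a' j - u j)
    · have : N j = a' j - u j := by simp [hN, h]
      obtain ⟨M, hM⟩ := h
      exact ⟨M, by omega⟩
    · have h1 : N j = a' j + u j + 1 := by simp [hN, h]
      rw [Int.not_even_iff_odd] at h
      obtain ⟨M, hM⟩ := h
      exact ⟨M + u j + 1, by omega⟩
  obtain ⟨g, hg, hg'⟩ := hSIM k A d (fun j => N j * sd A j l') ε hε1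
  have mult : ∀ L : ℤ, L + d ≤ l' + (k + 1) → ∀ j, ∃ n : ℤ,
      (N j : ℝ) * sd A j l' = n * sd A j (L + d) := by
    intro L hL j
    obtain ⟨M, hM⟩ := hNe j
    obtain ⟨K, hK⟩ := (hSD k A j (L + d)).2.2.2.2.1 (l' + (k + 1)) hL
    have h2 := (hSD k A j l').2.2.2.2.2.1
    refine ⟨M * K, ?_⟩
    rw [hM]
    push_cast
    calc (2 : ℝ) * M * sd A j l' = M * (2 * sd A j l') := by ring
      _ = M * sd A j (l' + (k + 1)) := by rw [h2]
      _ = M * K * sd A j (L + d) := by rw [hK]; ring
  refine ⟨g, hg, ?_, ?_, ?_⟩
  · have h := hIMG k A d l (fun j => N j * sd A j l') ε N a a' g hg'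
      (fun j => by rw [show l + d = l' by omega]) (fun j => ?_)
    · rwa [show l + d = l' by omega] at h
    · by_cases h : Even (a' j - u j)
      · left
        refine ⟨by simp [hε, h], ?_⟩
        have : N j = a' j - u j := by simp [hN, h]
        rw [this]; simp only [hu]; ring
      · right
        refine ⟨by simp [hε, h], ?_⟩
        have : N j = a' j + u j + 1 := by simp [hN, h]
        rw [this]; simp only [hu]; ring
  · intro L b hL
    choose n hn using mult L (by omega)
    refine ⟨fun j => if Even (a' j - u j) then n j + b (j - (d : ZMod (k + 1)))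
      else n j - b (j - (d : ZMod (k + 1))) - 1, ?_⟩
    refine hIMG k A d L (fun j => N j * sd A j l') ε n b _ g hg' hn (fun j => ?_)
    by_cases h : Even (a' j - u j)
    · left; exact ⟨by simp [hε, h], by simp [h]⟩
    · right; exact ⟨by simp [hε, h], by simp [h]⟩
  · intro L b' hL
    have e : L - d + d = L := by omega
    choose n hn using mult (L - d) (by omega)
    refine ⟨fun i => if Even (a' (i + (d : ZMod (k + 1))) - u (i + (d : ZMod (k + 1)))) then
      b' (i + (d : ZMod (k + 1))) - n (i + (d : ZMod (k + 1)))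
      else n (i + (d : ZMod (k + 1))) - b' (i + (d : ZMod (k + 1))) - 1, ?_⟩
    have h := hIMG k A d (L - d) (fun j => N j * sd A j l') ε n
      (fun i => if Even (a' (i + (d : ZMod (k + 1))) - u (i + (d : ZMod (k + 1)))) then
        b' (i + (d : ZMod (k + 1))) - n (i + (d : ZMod (k + 1)))
        else n (i + (d : ZMod (k + 1))) - b' (i + (d : ZMod (k + 1))) - 1) b' g hg' hn (fun j => ?_)
    · rwa [e] at h
    · by_cases h : Even (a' j - u j)
      · left
        refine ⟨by simp [hε, h], ?_⟩
        simp only [sub_add_cancel, h, if_true]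
        ring
      · right
        refine ⟨by simp [hε, h], ?_⟩
        simp only [sub_add_cancel, h, if_false]
        ring

end Pool.Agent.L7h63.CR
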