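import Mathlib
import Pool.Agent.L7h31.CR.Stm

/-! The images of the tiles. -/

set_option autoImplicit false

namespace Pool.Agent.L7h63.CR

open Pool.Agent.L7h31.CR
open scoped BigOperators

lemma sd_shift (hSD : S_SD) {k : ℕ} (A : Par k) (j : ZMod (k + 1)) (L d : ℤ) :
    sd A j (L + d) = A.lam ^ d * sd A (j - (d : ZMod (k + 1))) L := by
  have h := (hSD k A (j - (d : ZMod (k + 1))) L).2.2.2.2.2.2 d
  rwa [sub_add_cancel] at h

lemma GG_shift (hSD : S_SD) (hGF : S_GF) {k : ℕ} (A : Par k) (L d : ℤ)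
    (τ ε x : ZMod (k + 1) → ℝ) (hε : ∀ j, ε j = 1 ∨ ε j = -1)
    (hτ : ∀ j, ∃ n : ℤ, τ j = n * sd A j (L + d)) :
    GG A (L + d) (fun j => τ j + ε j * A.lam ^ d * x (j - (d : ZMod (k + 1)))) =
      (A.lam ^ d) ^ 2 * GG A L x := by
  have h0 : 0 < A.lam := lt_trans one_pos A.one_lt
  have hL : 0 < A.lam ^ d := zpow_pos h0 d
  unfold GG
  have h1 : ∑ i, sd A i L ^ 2 * gf (x i / sd A i L) =
      ∑ j, sd A (j - (d : ZMod (k + 1))) L ^ 2 *
        gf (x (j - (d : ZMod (k + 1))) / sd A (j - (d : ZMod (k + 1))) L) :=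
    (Equiv.sum_comp (Equiv.subRight (d : ZMod (k + 1)))
      (fun i => sd A i L ^ 2 * gf (x i / sd A i L))).symm
  rw [h1, mul_add ((A.lam ^ d) ^ 2), Finset.mul_sum]
  congr 1
  · rw [show (2 : ℤ) * (L + d) = 2 * L + (d + d) by ring, zpow_add₀ h0.ne', zpow_add₀ h0.ne']
    ring
  · refine Finset.sum_congr rfl fun j _ => ?_
    obtain ⟨n, hn⟩ := hτ j
    have hs := sd_shift hSD A j L d
    have sp : 0 < sd A (j - (d : ZMod (k + 1))) L := (hSD k A _ L).1
    have h2 : gf ((τ j + ε j * A.lam ^ d * x (j - (d : ZMod (k + 1)))) / sd A j (L + d)) =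
        gf (x (j - (d : ZMod (k + 1))) / sd A (j - (d : ZMod (k + 1))) L) := by
      have h3 : (τ j + ε j * A.lam ^ d * x (j - (d : ZMod (k + 1)))) / sd A j (L + d) =
          n + ε j * (x (j - (d : ZMod (k + 1))) / sd A (j - (d : ZMod (k + 1))) L) := by
        rw [hn, hs]
        field_simp
      rw [h3]
      rcases hε j with h | h
      · rw [h, one_mul, add_comm]
        exact (hGF.2.1 _ n).1
      · rw [h, neg_one_mul, ← sub_eq_add_neg]
        exact (hGF.2.1 _ n).2
    rw [h2, hs]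
    ring

theorem s_IMG : S_SD → S_GF → S_IMG := by
  intro hSD hGF k A d L τ ε N b b' g hg hτ hb
  have h0 : 0 < A.lam := lt_trans one_pos A.one_lt
  have hL : 0 < A.lam ^ d := zpow_pos h0 d
  have hε : ∀ j, ε j = 1 ∨ ε j = -1 := fun j => (hb j).imp And.left And.left
  have key : ∀ z, g z ∈ tile A (L + d) b' ↔ z ∈ tile A L b := by
    intro z
    have hx : (g z).x = fun j => τ j + ε j * A.lam ^ d * z.x (j - (d : ZMod (k + 1))) :=
      funext (hg z).1
    have e1 : GG A (L + d) (g z).x = (A.lam ^ d) ^ 2 * GG A L z.x := by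
      rw [hx]
      exact GG_shift hSD hGF A L d τ ε z.x hε fun j => ⟨N j, hτ j⟩
    have e2 : GG A (L + d - 1) (g z).x = (A.lam ^ d) ^ 2 * GG A (L - 1) z.x := by
      rw [hx, show L + d - 1 = (L - 1) + d by ring]
      refine GG_shift hSD hGF A (L - 1) d τ ε z.x hε fun j => ?_
      obtain ⟨M, hM⟩ := (hSD k A j (L - 1 + d)).2.2.2.2.1 (L + d) (by linarith)
      refine ⟨N j * M, ?_⟩
      rw [hτ j, hM]
      push_cast
      ring
    have e3 : (g z).y ^ 2 = (A.lam ^ d) ^ 2 * z.y ^ 2 := by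
      rw [(hg z).2]; ring
    have hL2 : 0 < (A.lam ^ d) ^ 2 := pow_pos hL 2
    have e4 : (∀ j, b' j * sd A j (L + d) ≤ (g z).x j ∧ (g z).x j ≤ (b' j + 1) * sd A j (L + d)) ↔
        ∀ i, b i * sd A i L ≤ z.x i ∧ z.x i ≤ (b i + 1) * sd A i L := by
      have e5 : ∀ j, (b' j * sd A j (L + d) ≤ (g z).x j ∧ (g z).x j ≤ (b' j + 1) * sd A j (L + d)) ↔
          (b (j - (d : ZMod (k + 1))) * sd A (j - (d : ZMod (k + 1))) L ≤
            z.x (j - (d : ZMod (k + 1))) ∧ z.x (j - (d : ZMod (k + 1))) ≤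
            (b (j - (d : ZMod (k + 1))) + 1) * sd A (j - (d : ZMod (k + 1))) L) := by
        intro j
        have hs := sd_shift hSD A j L d
        rw [(hg z).1 j, hτ j, hs]
        have m : ∀ u v : ℝ, A.lam ^ d * u ≤ A.lam ^ d * v ↔ u ≤ v := fun u v =>
          mul_le_mul_iff_right₀ hL
        rcases hb j with ⟨h, h'⟩ | ⟨h, h'⟩
        · rw [h, h']
          push_cast
          rw [← m (b (j - (d : ZMod (k + 1))) * sd A (j - (d : ZMod (k + 1))) L),
            ← m (z.x (j - (d : ZMod (k + 1))))]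
          constructor
          · rintro ⟨h1, h2⟩
            constructor <;> nlinarith
          · rintro ⟨h1, h2⟩
            constructor <;> nlinarith
        · rw [h, h']
          push_cast
          rw [← m (b (j - (d : ZMod (k + 1))) * sd A (j - (d : ZMod (k + 1))) L),
            ← m (z.x (j - (d : ZMod (k + 1))))]
          constructor
          · rintro ⟨h1, h2⟩
            constructor <;> nlinarith
          · rintro ⟨h1, h2⟩
            constructor <;> nlinarith
      constructor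
      · intro h i
        have := (e5 (i + (d : ZMod (k + 1)))).1 (h _)
        rwa [add_sub_cancel_right] at this
      · intro h j
        exact (e5 j).2 (h _)
    change (_ ∧ _ ∧ _) ↔ (_ ∧ _ ∧ _)
    rw [e4, e1, e2, e3, mul_le_mul_iff_right₀ hL2, mul_le_mul_iff_right₀ hL2]
  ext w
  constructor
  · rintro ⟨z, hz, rfl⟩
    exact (key z).2 hz
  · intro hw
    refine ⟨g.symm w, (key _).1 ?_, g.apply_symm_apply w⟩
    rwa [g.apply_symm_apply]

end Pool.Agent.L7h63.CR
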