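import Mathlib
import Pool.Agent.L7h31.CR.Stm

/-! Similarities of the half-space. -/

set_option autoImplicit false

namespace Pool.Agent.L7h63.CR

open Pool.Agent.L7h31.CR
open scoped BigOperators

theorem s_SIM : S_SIM := by
  intro k A d τ ε hε
  have h0 : 0 < A.lam := lt_trans one_pos A.one_lt
  have hL : 0 < A.lam ^ d := zpow_pos h0 d
  have hL' : 0 < (A.lam ^ d)⁻¹ := inv_pos.2 hL
  have hee : ∀ j, ε j * ε j = 1 := fun j => by rcases hε j with h | h <;> rw [h] <;> norm_num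
  refine ⟨⟨fun z => ⟨fun j => τ j + ε j * A.lam ^ d * z.x (j - (d : ZMod (k + 1))),
      A.lam ^ d * z.y, mul_pos hL z.pos⟩,
    fun z => ⟨fun i => ε (i + (d : ZMod (k + 1))) * (A.lam ^ d)⁻¹ *
      (z.x (i + (d : ZMod (k + 1))) - τ (i + (d : ZMod (k + 1)))),
      (A.lam ^ d)⁻¹ * z.y, mul_pos hL' z.pos⟩, ?_, ?_⟩, ?_, ?_⟩
  · intro z
    refine Hyp.ext (funext fun i => ?_) ?_
    · simp only [add_sub_cancel_right]
      have := hee (i + (d : ZMod (k + 1)))
      calc _ = (ε (i + (d : ZMod (k + 1))) * ε (i + (d : ZMod (k + 1)))) *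
            ((A.lam ^ d)⁻¹ * A.lam ^ d) * z.x i := by ring
        _ = z.x i := by rw [this, inv_mul_cancel₀ hL.ne']; ring
    · simp only
      rw [← mul_assoc, inv_mul_cancel₀ hL.ne', one_mul]
  · intro z
    refine Hyp.ext (funext fun j => ?_) ?_
    · simp only [sub_add_cancel]
      have := hee j
      calc _ = τ j + (ε j * ε j) * (A.lam ^ d * (A.lam ^ d)⁻¹) * (z.x j - τ j) := by ring
        _ = z.x j := by rw [this, mul_inv_cancel₀ hL.ne']; ring
    · simp only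
      rw [← mul_assoc, mul_inv_cancel₀ hL.ne', one_mul]
  · intro p q
    unfold hdist Pool.Agent.L7h31.CR.sq
    simp only [Equiv.coe_fn_mk]
    have h1 : ∑ j, (τ j + ε j * A.lam ^ d * p.x (j - (d : ZMod (k + 1))) -
        (τ j + ε j * A.lam ^ d * q.x (j - (d : ZMod (k + 1))))) ^ 2 =
        (A.lam ^ d) ^ 2 * ∑ i, (p.x i - q.x i) ^ 2 := by
      have h0 : ∑ i, (p.x i - q.x i) ^ 2 = ∑ j, (p.x (j - (d : ZMod (k + 1))) -
          q.x (j - (d : ZMod (k + 1)))) ^ 2 :=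
        (Equiv.sum_comp (Equiv.subRight (d : ZMod (k + 1)))
          (fun i => (p.x i - q.x i) ^ 2)).symm
      rw [h0, Finset.mul_sum]
      refine Finset.sum_congr rfl fun j _ => ?_
      calc _ = (ε j * ε j) * ((A.lam ^ d) ^ 2 * (p.x (j - (d : ZMod (k + 1))) -
            q.x (j - (d : ZMod (k + 1)))) ^ 2) := by ring
        _ = _ := by rw [hee j, one_mul]
    have h2 : √((∑ j, (τ j + ε j * A.lam ^ d * p.x (j - (d : ZMod (k + 1))) -
        (τ j + ε j * A.lam ^ d * q.x (j - (d : ZMod (k + 1))))) ^ 2) +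
        (A.lam ^ d * p.y - A.lam ^ d * q.y) ^ 2) =
        A.lam ^ d * √((∑ i, (p.x i - q.x i) ^ 2) + (p.y - q.y) ^ 2) := by
      rw [h1, show (A.lam ^ d) ^ 2 * ∑ i, (p.x i - q.x i) ^ 2 +
        (A.lam ^ d * p.y - A.lam ^ d * q.y) ^ 2 =
        (A.lam ^ d) ^ 2 * ((∑ i, (p.x i - q.x i) ^ 2) + (p.y - q.y) ^ 2) by ring,
        Real.sqrt_mul (sq_nonneg _), Real.sqrt_sq hL.le]
    have h3 : √(A.lam ^ d * p.y * (A.lam ^ d * q.y)) = A.lam ^ d * √(p.y * q.y) := by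
      rw [show A.lam ^ d * p.y * (A.lam ^ d * q.y) = (A.lam ^ d) ^ 2 * (p.y * q.y) by ring,
        Real.sqrt_mul (sq_nonneg _), Real.sqrt_sq hL.le]
    rw [h2, h3]
    congr 2
    rw [show 2 * (A.lam ^ d * √(p.y * q.y)) = A.lam ^ d * (2 * √(p.y * q.y)) by ring,
      mul_div_mul_left _ _ hL.ne']
  · intro z
    exact ⟨fun j => rfl, rfl⟩

end Pool.Agent.L7h63.CR
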